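import Pool.Agent.helper85.PG.Spec2
import Pool.Agent.helper85.PG.Basic

set_option autoImplicit false

namespace Pool.Agent.helper85.PG

open Module Pointwise

theorem THB_large (c K : ℝ) (hc : 0 < c) : ∃ p₀ : ℕ, ∀ p : ℕ, p₀ ≤ p → K ≤ (p : ℝ) ^ c := by
  have h := ((tendsto_rpow_atTop hc).comp tendsto_natCast_atTop_atTop).eventually_ge_atTop K
  obtain ⟨p₀, hp⟩ := Filter.eventually_atTop.1 h
  exact ⟨p₀, fun p hpp => hp p hpp⟩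

theorem THB_univ (hTMO : TMO_stmt) (p : ℕ) [Fact p.Prime] (χ : MulChar (ZMod p) ℂ) (hχ : χ ≠ 1)
    (A B : Finset (ZMod p)) (s : ZMod p) (α β : ZMod p → ℂ) (hα : ∀ a, ‖α a‖ ≤ 1)
    (hβ : ∀ b, ‖β b‖ ≤ 1) :
    ‖∑ a ∈ A, ∑ b ∈ B, α a * β b * χ (a + b + s)‖ ≤
      Real.sqrt (p : ℝ) * Real.sqrt ((B.card : ℝ) * p + 2 * (B.card : ℝ) ^ 2 * Real.sqrt p) := by
  have h1 : ‖∑ a ∈ A, ∑ b ∈ B, α a * β b * χ (a + b + s)‖ ≤
      ∑ u : ZMod p, ‖∑ b ∈ B, β b * χ (b + u)‖ := by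
    calc ‖∑ a ∈ A, ∑ b ∈ B, α a * β b * χ (a + b + s)‖
        ≤ ∑ a ∈ A, ‖∑ b ∈ B, α a * β b * χ (a + b + s)‖ := norm_sum_le _ _
      _ ≤ ∑ a ∈ A, ‖∑ b ∈ B, β b * χ (b + (a + s))‖ := by
          refine Finset.sum_le_sum fun a _ => ?_
          have e : ∑ b ∈ B, α a * β b * χ (a + b + s) = α a * ∑ b ∈ B, β b * χ (b + (a + s)) := by
            rw [Finset.mul_sum]
            refine Finset.sum_congr rfl fun b _ => ?_
            have : a + b + s = b + (a + s) := by ring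
            rw [this, mul_assoc]
          rw [e, norm_mul]
          calc ‖α a‖ * ‖∑ b ∈ B, β b * χ (b + (a + s))‖
              ≤ 1 * ‖∑ b ∈ B, β b * χ (b + (a + s))‖ :=
                mul_le_mul_of_nonneg_right (hα a) (norm_nonneg _)
            _ = _ := one_mul _
      _ ≤ ∑ a : ZMod p, ‖∑ b ∈ B, β b * χ (b + (a + s))‖ :=
          Finset.sum_le_sum_of_subset_of_nonneg (Finset.subset_univ _)
            (fun _ _ _ => norm_nonneg _)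
      _ = ∑ u : ZMod p, ‖∑ b ∈ B, β b * χ (b + u)‖ :=
          Equiv.sum_comp (Equiv.addRight s) (fun u => ‖∑ b ∈ B, β b * χ (b + u)‖)
  have h2 : (∑ u : ZMod p, ‖∑ b ∈ B, β b * χ (b + u)‖) ^ 2 ≤
      (p : ℝ) * ∑ u : ZMod p, ‖∑ b ∈ B, β b * χ (b + u)‖ ^ 2 := by
    have := sq_sum_le_card_mul_sum_sq (s := (Finset.univ : Finset (ZMod p)))
      (f := fun u => ‖∑ b ∈ B, β b * χ (b + u)‖)
    rwa [Finset.card_univ, ZMod.card] at this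
  have h3 := hTMO p χ hχ 1 B β hβ
  simp only [mul_one, Nat.cast_one, one_pow, one_mul, pow_one] at h3
  rw [← Real.sqrt_mul (Nat.cast_nonneg p)]
  refine h1.trans (Real.le_sqrt_of_sq_le (h2.trans ?_))
  refine mul_le_mul_of_nonneg_left (h3.trans (le_of_eq ?_)) (Nat.cast_nonneg p)
  ring

theorem THB_sum (p : ℕ) [Fact p.Prime] (P P' X : Finset (ZMod p)) (fx : ZMod p → ZMod p)
    (hfx : ∀ a ∈ P, fx a ∈ X ∧ a - fx a ∈ P') (G : ZMod p → ℂ) :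
    ∑ a ∈ P, G a = ∑ x ∈ X, ∑ a' ∈ P', if a' + x ∈ P ∧ fx (a' + x) = x then G (a' + x) else 0 := by
  rw [← Finset.sum_fiberwise_of_maps_to (fun a ha => (hfx a ha).1) G]
  refine Finset.sum_congr rfl fun x _ => ?_
  rw [← Finset.sum_filter]
  refine Finset.sum_nbij' (fun a => a - x) (fun a' => a' + x) ?_ ?_ ?_ ?_ ?_
  · intro a ha
    rw [Finset.mem_filter] at ha ⊢
    rw [sub_add_cancel]
    refine ⟨?_, ha⟩
    have := (hfx a ha.1).2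
    rwa [ha.2] at this
  · intro a ha
    rw [Finset.mem_filter] at ha ⊢
    exact ha.2
  · intro a _
    exact sub_add_cancel a x
  · intro a _
    exact add_sub_cancel_right a x
  · intro a _
    rw [sub_add_cancel]

theorem THB_half (p : ℕ) [Fact p.Prime] (χ : MulChar (ZMod p) ℂ) (P P' X Q : Finset (ZMod p))
    (hX : ∀ a ∈ P, ∃ x ∈ X, a - x ∈ P') (B : ℝ)
    (hB : ∀ (s : ZMod p) (α β : ZMod p → ℂ), (∀ a, ‖α a‖ ≤ 1) → (∀ b, ‖β b‖ ≤ 1) →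
      ‖∑ a ∈ P', ∑ b ∈ Q, α a * β b * χ (a + b + s)‖ ≤ B)
    (s : ZMod p) (α β : ZMod p → ℂ) (hα : ∀ a, ‖α a‖ ≤ 1) (hβ : ∀ b, ‖β b‖ ≤ 1) :
    ‖∑ a ∈ P, ∑ b ∈ Q, α a * β b * χ (a + b + s)‖ ≤ (X.card : ℝ) * B := by
  have hch : ∀ a : ZMod p, ∃ x : ZMod p, a ∈ P → x ∈ X ∧ a - x ∈ P' := by
    intro a
    by_cases ha : a ∈ P
    · obtain ⟨x, hx, hx'⟩ := hX a ha
      exact ⟨x, fun _ => ⟨hx, hx'⟩⟩
    · exact ⟨0, fun h => absurd h ha⟩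
  choose fx hfx using hch
  rw [THB_sum p P P' X fx hfx (fun a => ∑ b ∈ Q, α a * β b * χ (a + b + s))]
  have e : ∀ x ∈ X, (∑ a' ∈ P', if a' + x ∈ P ∧ fx (a' + x) = x then
      ∑ b ∈ Q, α (a' + x) * β b * χ (a' + x + b + s) else 0) =
      ∑ a' ∈ P', ∑ b ∈ Q, (if a' + x ∈ P ∧ fx (a' + x) = x then α (a' + x) else 0) * β b *
        χ (a' + b + (s + x)) := by
    intro x _
    refine Finset.sum_congr rfl fun a' _ => ?_
    split_ifs with h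
    · refine Finset.sum_congr rfl fun b _ => ?_
      have : a' + x + b + s = a' + b + (s + x) := by ring
      rw [this]
    · simp
  rw [Finset.sum_congr rfl e]
  calc ‖∑ x ∈ X, ∑ a' ∈ P', ∑ b ∈ Q, (if a' + x ∈ P ∧ fx (a' + x) = x then α (a' + x) else 0) *
        β b * χ (a' + b + (s + x))‖
      ≤ ∑ x ∈ X, ‖∑ a' ∈ P', ∑ b ∈ Q,
        (if a' + x ∈ P ∧ fx (a' + x) = x then α (a' + x) else 0) * β b *
          χ (a' + b + (s + x))‖ := norm_sum_le _ _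
    _ ≤ ∑ _x ∈ X, B := by
        refine Finset.sum_le_sum fun x _ => ?_
        refine hB (s + x) (fun a' => if a' + x ∈ P ∧ fx (a' + x) = x then α (a' + x) else 0) β
          (fun a' => ?_) hβ
        split_ifs
        · exact hα _
        · rw [norm_zero]; exact zero_le_one
    _ = (X.card : ℝ) * B := by rw [Finset.sum_const, nsmul_eq_mul]

theorem THB_swap (p : ℕ) [Fact p.Prime] (χ : MulChar (ZMod p) ℂ) (P Q : Finset (ZMod p))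
    (s : ZMod p) (α β : ZMod p → ℂ) :
    ∑ a ∈ P, ∑ b ∈ Q, α a * β b * χ (a + b + s) =
      ∑ b ∈ Q, ∑ a ∈ P, β b * α a * χ (b + a + s) := by
  rw [Finset.sum_comm]
  refine Finset.sum_congr rfl fun b _ => Finset.sum_congr rfl fun a _ => ?_
  rw [add_comm a b, mul_comm (α a) (β b)]

theorem THB_split (p : ℕ) [Fact p.Prime] (χ : MulChar (ZMod p) ℂ) (P P' X Q Q' Y : Finset (ZMod p))
    (hX : ∀ a ∈ P, ∃ x ∈ X, a - x ∈ P') (hY : ∀ b ∈ Q, ∃ y ∈ Y, b - y ∈ Q') (B : ℝ)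
    (hB : ∀ (s : ZMod p) (α β : ZMod p → ℂ), (∀ a, ‖α a‖ ≤ 1) → (∀ b, ‖β b‖ ≤ 1) →
      ‖∑ a ∈ P', ∑ b ∈ Q', α a * β b * χ (a + b + s)‖ ≤ B)
    (s : ZMod p) (α β : ZMod p → ℂ) (hα : ∀ a, ‖α a‖ ≤ 1) (hβ : ∀ b, ‖β b‖ ≤ 1) :
    ‖∑ a ∈ P, ∑ b ∈ Q, α a * β b * χ (a + b + s)‖ ≤ (X.card : ℝ) * ((Y.card : ℝ) * B) := by
  refine THB_half p χ P P' X Q hX ((Y.card : ℝ) * B) (fun s α β hα hβ => ?_) s α β hα hβ
  rw [THB_swap]
  refine THB_half p χ Q Q' Y P' hY B (fun s α β hα hβ => ?_) s β α hβ hα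
  rw [THB_swap]
  exact hB s β α hβ hα

/-- the case of a full system -/
theorem THB_case (hTMO : TMO_stmt) (p : ℕ) [Fact p.Prime] (χ : MulChar (ZMod p) ℂ) (hχ : χ ≠ 1)
    (ε' δ : ℝ) (hε' : ε' ≤ 1 / 2) (hδ : 4 * δ ≤ ε') (h3 : 3 ≤ (p : ℝ) ^ (ε' / 2))
    (B : Finset (ZMod p)) (hB : (p : ℝ) ^ ε' ≤ (B.card : ℝ)) (s : ZMod p) (α β : ZMod p → ℂ)
    (hα : ∀ a, ‖α a‖ ≤ 1) (hβ : ∀ b, ‖β b‖ ≤ 1) :
    ‖∑ a ∈ (Finset.univ : Finset (ZMod p)), ∑ b ∈ B, α a * β b * χ (a + b + s)‖ ≤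
      (p : ℝ) ^ (-δ) * ((p : ℝ) * (B.card : ℝ)) := by
  have hp1 : (1 : ℝ) ≤ p := by exact_mod_cast (Fact.out : p.Prime).one_lt.le
  have hp0 : (0 : ℝ) < p := by linarith
  refine (THB_univ hTMO p χ hχ Finset.univ B s α β hα hβ).trans ?_
  rw [← Real.sqrt_mul hp0.le]
  refine Real.sqrt_le_iff.2 ⟨by positivity, ?_⟩
  set N : ℝ := (B.card : ℝ) with hN
  have hN0 : 0 < N := lt_of_lt_of_le (Real.rpow_pos_of_pos hp0 _) hB
  have hneg : (p : ℝ) ^ (-ε') * (p : ℝ) ^ ε' = 1 := by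
    rw [← Real.rpow_add hp0, neg_add_cancel, Real.rpow_zero]
  have hpos : 0 < (p : ℝ) ^ (-ε') := Real.rpow_pos_of_pos hp0 _
  have a1 : 1 ≤ (p : ℝ) ^ (-ε') * N := by
    rw [← hneg]; exact mul_le_mul_of_nonneg_left hB hpos.le
  have a2 : Real.sqrt (p : ℝ) ≤ (p : ℝ) * (p : ℝ) ^ (-ε') := by
    rw [Real.sqrt_eq_rpow]
    calc (p : ℝ) ^ (1 / 2 : ℝ) ≤ (p : ℝ) ^ (1 + -ε') :=
          Real.rpow_le_rpow_of_exponent_le hp1 (by linarith)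
      _ = (p : ℝ) * (p : ℝ) ^ (-ε') := by rw [Real.rpow_add hp0, Real.rpow_one]
  have a3 : 3 * (p : ℝ) ^ (-ε') ≤ (p : ℝ) ^ (-δ) * (p : ℝ) ^ (-δ) := by
    rw [← Real.rpow_add hp0]
    calc 3 * (p : ℝ) ^ (-ε') ≤ (p : ℝ) ^ (ε' / 2) * (p : ℝ) ^ (-ε') :=
          mul_le_mul_of_nonneg_right h3 hpos.le
      _ = (p : ℝ) ^ (-(ε' / 2)) := by rw [← Real.rpow_add hp0]; congr 1; ring
      _ ≤ (p : ℝ) ^ (-δ + -δ) := Real.rpow_le_rpow_of_exponent_le hp1 (by linarith)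
  have b1 : N * p ≤ (p : ℝ) ^ (-ε') * (p * N ^ 2) := by
    have := mul_le_mul_of_nonneg_right a1 (by positivity : 0 ≤ N * (p : ℝ))
    calc N * p = 1 * (N * p) := (one_mul _).symm
      _ ≤ (p : ℝ) ^ (-ε') * N * (N * p) := this
      _ = _ := by ring
  have b2 : 2 * N ^ 2 * Real.sqrt (p : ℝ) ≤ 2 * ((p : ℝ) ^ (-ε') * (p * N ^ 2)) := by
    calc 2 * N ^ 2 * Real.sqrt (p : ℝ) ≤ 2 * N ^ 2 * ((p : ℝ) * (p : ℝ) ^ (-ε')) :=
          mul_le_mul_of_nonneg_left a2 (by positivity)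
      _ = _ := by ring
  calc (p : ℝ) * (N * p + 2 * N ^ 2 * Real.sqrt (p : ℝ))
      ≤ (p : ℝ) * (3 * ((p : ℝ) ^ (-ε') * (p * N ^ 2))) :=
        mul_le_mul_of_nonneg_left (by linarith) hp0.le
    _ = (3 * (p : ℝ) ^ (-ε')) * (p * N) ^ 2 := by ring
    _ ≤ ((p : ℝ) ^ (-δ) * (p : ℝ) ^ (-δ)) * (p * N) ^ 2 :=
        mul_le_mul_of_nonneg_right a3 (by positivity)
    _ = _ := by ring

theorem THB (hSHR : SHR_stmt) (hCA : CA_stmt) (hCB : CB_stmt) (hTMO : TMO_stmt) : THB_stmt := by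
  intro d ε hε
  set ε' : ℝ := min ε (1 / 2) with hε'_def
  have hε' : 0 < ε' := lt_min hε (by norm_num)
  have hε'1 : ε' ≤ ε := min_le_left _ _
  have hε'2 : ε' ≤ 1 / 2 := min_le_right _ _
  obtain ⟨ε₁, δB, pB, hε₁, hδB, HB⟩ := hCB d ε' ((25 : ℝ) ^ d) hε' (one_le_pow₀ (by norm_num))
  obtain ⟨δA, pA, hδA, HA⟩ := hCA d ε' ε₁ hε' hε₁
  set δ' : ℝ := min δA δB with hδ'_def
  have hδ' : 0 < δ' := lt_min hδA hδB
  set δ : ℝ := min (δ' / 2) (ε' / 4) with hδ_def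
  have hδ : 0 < δ := lt_min (by linarith) (by linarith)
  have hδ1 : δ ≤ δ' / 2 := min_le_left _ _
  have hδ2 : 4 * δ ≤ ε' := by
    have := min_le_right (δ' / 2) (ε' / 4)
    linarith
  obtain ⟨p1, hp1⟩ := THB_large (δ' / 2) ((25 : ℝ) ^ d * (25 : ℝ) ^ d) (by linarith)
  obtain ⟨p2, hp2⟩ := THB_large (ε' / 2) 3 (by linarith)
  refine ⟨δ, max (max pA pB) (max p1 p2), hδ, ?_⟩
  intro p _ hp P Q hP Q' hPe hQe hPQ χ hχ
  have hpA : pA ≤ p := le_trans (le_trans (le_max_left _ _) (le_max_left _ _)) hp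
  have hpB : pB ≤ p := le_trans (le_trans (le_max_right _ _) (le_max_left _ _)) hp
  have hpp1 : p1 ≤ p := le_trans (le_trans (le_max_left _ _) (le_max_right _ _)) hp
  have hpp2 : p2 ≤ p := le_trans (le_trans (le_max_right _ _) (le_max_right _ _)) hp
  have hpone : (1 : ℝ) ≤ p := by exact_mod_cast (Fact.out : p.Prime).one_lt.le
  have hp0 : (0 : ℝ) < p := by linarith
  have hQs := Q'
  have h25 := hp1 p hpp1
  have h3 := hp2 p hpp2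
  have hPe' : (p : ℝ) ^ ε' ≤ ((P 1).card : ℝ) :=
    (Real.rpow_le_rpow_of_exponent_le hpone hε'1).trans hPe
  have hQe' : (p : ℝ) ^ ε' ≤ ((Q 1).card : ℝ) :=
    (Real.rpow_le_rpow_of_exponent_le hpone hε'1).trans hQe
  by_cases hP0 : P 0 = Finset.univ
  · have hP1 : P 1 = Finset.univ :=
      Finset.univ_subset_iff.1 (hP0 ▸ hP.mono (zero_le_one))
    intro s α β hα hβ
    have hc : ((P 1).card : ℝ) = p := by rw [hP1, Finset.card_univ, ZMod.card]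
    rw [hc, hP1]
    exact THB_case hTMO p χ hχ ε' δ hε'2 hδ2 h3 (Q 1) hQe' s α β hα hβ
  by_cases hQ0 : Q 0 = Finset.univ
  · have hQ1 : Q 1 = Finset.univ :=
      Finset.univ_subset_iff.1 (hQ0 ▸ hQs.mono (zero_le_one))
    intro s α β hα hβ
    have hc : ((Q 1).card : ℝ) = p := by rw [hQ1, Finset.card_univ, ZMod.card]
    rw [hc, hQ1, THB_swap, mul_comm ((P 1).card : ℝ) (p : ℝ)]
    exact THB_case hTMO p χ hχ ε' δ hε'2 hδ2 h3 (P 1) hPe' s β α hβ hα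
  obtain ⟨P', X, hP's, hP'1, hP'2, hP'3, hP'4⟩ := hSHR p d P hP hP0
  obtain ⟨Q₁, Y, hQ's, hQ'1, hQ'2, hQ'3, hQ'4⟩ := hSHR p d Q hQs hQ0
  have hhalf : ∀ x : ℝ, 0 ≤ x → (p : ℝ) ≤ x ^ 2 → (p : ℝ) ^ (1 / 2 : ℝ) ≤ x := by
    intro x hx h
    rw [← Real.sqrt_eq_rpow]
    exact Real.sqrt_le_iff.2 ⟨hx, h⟩
  have hPc : (p : ℝ) ^ ε' ≤ ((P' 1).card : ℝ) := by
    rcases hP'2 with h | h
    · exact hPe'.trans h
    · exact (Real.rpow_le_rpow_of_exponent_le hpone hε'2).trans (hhalf _ (Nat.cast_nonneg _) h)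
  have hQc : (p : ℝ) ^ ε' ≤ ((Q₁ 1).card : ℝ) := by
    rcases hQ'2 with h | h
    · exact hQe'.trans h
    · exact (Real.rpow_le_rpow_of_exponent_le hpone hε'2).trans (hhalf _ (Nat.cast_nonneg _) h)
  have hPQc : (p : ℝ) ^ (1 / 2 + ε') ≤ ((P' 1).card : ℝ) * ((Q₁ 1).card : ℝ) := by
    rcases hP'2 with h | h
    · rcases hQ'2 with h' | h'
      · calc (p : ℝ) ^ (1 / 2 + ε') ≤ (p : ℝ) ^ (1 / 2 + ε) :=
              Real.rpow_le_rpow_of_exponent_le hpone (by linarith)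
          _ ≤ ((P 1).card : ℝ) * ((Q 1).card : ℝ) := hPQ
          _ ≤ _ := mul_le_mul h h' (Nat.cast_nonneg _) (Nat.cast_nonneg _)
      · rw [add_comm, Real.rpow_add hp0]
        exact mul_le_mul hPc (hhalf _ (Nat.cast_nonneg _) h')
          (Real.rpow_nonneg hp0.le _) (Nat.cast_nonneg _)
    · rw [Real.rpow_add hp0]
      exact mul_le_mul (hhalf _ (Nat.cast_nonneg _) h) hQc
          (Real.rpow_nonneg hp0.le _) (Nat.cast_nonneg _)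
  -- the bound for the small systems
  have hsmall : ∀ (s : ZMod p) (α β : ZMod p → ℂ), (∀ a, ‖α a‖ ≤ 1) → (∀ b, ‖β b‖ ≤ 1) →
      ‖∑ a ∈ P' 1, ∑ b ∈ Q₁ 1, α a * β b * χ (a + b + s)‖ ≤
        (p : ℝ) ^ (-δ') * (((P' 1).card : ℝ) * ((Q₁ 1).card : ℝ)) := by
    intro s α β hα hβ
    have hnn : 0 ≤ ((P' 1).card : ℝ) * ((Q₁ 1).card : ℝ) := by positivity
    rcases le_total ((P' 1 ∩ Q₁ 1).card : ℝ) ((p : ℝ) ^ ε₁) with h | h
    · refine (HB p hpB P' Q₁ hP's hQ's hP'1 hQ'1 hPc hQc hPQc h χ hχ s α β hα hβ).trans ?_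
      exact mul_le_mul_of_nonneg_right
        (Real.rpow_le_rpow_of_exponent_le hpone (neg_le_neg (min_le_right _ _))) hnn
    · refine (HA p hpA P' Q₁ hP's hQ's hPQc h χ hχ s α β hα hβ).trans ?_
      exact mul_le_mul_of_nonneg_right
        (Real.rpow_le_rpow_of_exponent_le hpone (neg_le_neg (min_le_left _ _))) hnn
  intro s α β hα hβ
  refine (THB_split p χ (P 1) (P' 1) X (Q 1) (Q₁ 1) Y hP'4 hQ'4 _ hsmall s α β hα hβ).trans ?_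
  have c1 : (25 : ℝ) ^ d * (25 : ℝ) ^ d * (p : ℝ) ^ (-δ') ≤ (p : ℝ) ^ (-δ) := by
    calc (25 : ℝ) ^ d * (25 : ℝ) ^ d * (p : ℝ) ^ (-δ')
        ≤ (p : ℝ) ^ (δ' / 2) * (p : ℝ) ^ (-δ') :=
          mul_le_mul_of_nonneg_right h25 (Real.rpow_nonneg hp0.le _)
      _ = (p : ℝ) ^ (-(δ' / 2)) := by rw [← Real.rpow_add hp0]; congr 1; ring
      _ ≤ (p : ℝ) ^ (-δ) := Real.rpow_le_rpow_of_exponent_le hpone (neg_le_neg hδ1)
  have hpd : 0 ≤ (p : ℝ) ^ (-δ') := Real.rpow_nonneg hp0.le _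
  calc (X.card : ℝ) * ((Y.card : ℝ) * ((p : ℝ) ^ (-δ') *
        (((P' 1).card : ℝ) * ((Q₁ 1).card : ℝ))))
      = ((X.card : ℝ) * ((P' 1).card : ℝ)) * ((Y.card : ℝ) * ((Q₁ 1).card : ℝ)) *
          (p : ℝ) ^ (-δ') := by ring
    _ ≤ ((25 : ℝ) ^ d * ((P 1).card : ℝ)) * ((25 : ℝ) ^ d * ((Q 1).card : ℝ)) *
          (p : ℝ) ^ (-δ') := by
        refine mul_le_mul_of_nonneg_right ?_ hpd
        exact mul_le_mul hP'3 hQ'3 (by positivity) (by positivity)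
    _ = ((25 : ℝ) ^ d * (25 : ℝ) ^ d * (p : ℝ) ^ (-δ')) *
          (((P 1).card : ℝ) * ((Q 1).card : ℝ)) := by ring
    _ ≤ _ := mul_le_mul_of_nonneg_right c1 (by positivity)

end Pool.Agent.helper85.PG
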